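import Mathlib

/-!
# Neighbor-locating chromatic number of Mycielski graphs (MP_03cbb9_co)

There is a connected graph `G` on 7 vertices with `χ_NL(μ(G)) ≤ χ_NL(G)`, so the equality
`χ_NL(μ(G)) = χ_NL(G) + 1` fails.
-/

namespace Pool.Agent.Results.MP_03cbb9_co.MycielskiNL

/-- Neighbor-locating colouring: proper, and any two distinct vertices of the same colour have
different sets of colours on their neighbourhoods. -/
def IsNL {V : Type} (G : SimpleGraph V) {k : ℕ} (c : V → Fin k) : Prop :=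
  (∀ u v, G.Adj u v → c u ≠ c v) ∧
    ∀ u v, u ≠ v → c u = c v → c '' G.neighborSet u ≠ c '' G.neighborSet v

/-- Neighbor-locating chromatic number. -/
noncomputable def chiNL {V : Type} (G : SimpleGraph V) : ℕ :=
  sInf {k | ∃ c : V → Fin k, IsNL G c}

/-- Adjacency of the Mycielski graph on `V ⊕ V ⊕ Unit`: `inl u` is the original vertex `u`,
`inr (inl u)` is `u'`, and `inr (inr ())` is `w`. -/
def muAdj {V : Type} (G : SimpleGraph V) : V ⊕ V ⊕ Unit → V ⊕ V ⊕ Unit → Prop
  | .inl u, .inl v => G.Adj u v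
  | .inl u, .inr (.inl v) => G.Adj u v
  | .inr (.inl u), .inl v => G.Adj u v
  | .inr (.inl _), .inr (.inr _) => True
  | .inr (.inr _), .inr (.inl _) => True
  | _, _ => False

/-- The Mycielski graph. -/
def mu {V : Type} (G : SimpleGraph V) : SimpleGraph (V ⊕ V ⊕ Unit) where
  Adj := muAdj G
  symm := ⟨by
    rintro (u | u | u) (v | v | v) h <;> simp_all [muAdj, G.adj_comm]⟩
  loopless := ⟨by
    rintro (u | u | u) h <;> simp_all [muAdj]⟩

/-- Neighbourhood lists of the 7-vertex graph. -/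
def nb : Fin 7 → List (Fin 7)
  | 0 => [3, 4, 5]
  | 1 => [4, 5, 6]
  | 2 => [4, 5, 6]
  | 3 => [0, 6]
  | 4 => [0, 1, 2]
  | 5 => [0, 1, 2]
  | 6 => [1, 2, 3]

/-- The 7-vertex graph. -/
def G : SimpleGraph (Fin 7) where
  Adj u v := v ∈ nb u
  symm := ⟨by
    have : ∀ u v : Fin 7, v ∈ nb u → u ∈ nb v := by decide
    exact this⟩
  loopless := ⟨by
    have : ∀ u : Fin 7, ¬ u ∈ nb u := by decide
    exact this⟩

/-- colour mask of a list of vertices -/
def msk (c : Fin 7 → ℕ) : List (Fin 7) → ℕ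
  | [] => 0
  | v :: l => (1 <<< c v) ||| msk c l

theorem msk_testBit (c : Fin 7 → ℕ) (l : List (Fin 7)) (i : ℕ) :
    (msk c l).testBit i = true ↔ ∃ v ∈ l, c v = i := by
  induction l with
  | nil => simp [msk]
  | cons v l ih => simp [msk, Nat.testBit_or, ih, Nat.one_shiftLeft, Nat.testBit_two_pow]

/-- the colouring from seven values -/
def mk (a0 a1 a2 a3 a4 a5 a6 : ℕ) : Fin 7 → ℕ
  | 0 => a0
  | 1 => a1
  | 2 => a2
  | 3 => a3
  | 4 => a4
  | 5 => a5
  | 6 => a6

/-- the boolean test: proper and neighbour-locating -/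
def test (c : Fin 7 → ℕ) : Bool :=
  (List.finRange 7).all fun u =>
    ((nb u).all fun v => !(Nat.beq (c u) (c v))) &&
    ((List.finRange 7).all fun v =>
      u == v || !(Nat.beq (c u) (c v)) || !(Nat.beq (msk c (nb u)) (msk c (nb v))))

theorem lower_dec : ∀ a0 a1 a2 a3 a4 a5 a6 : Fin 4,
    test (mk a0 a1 a2 a3 a4 a5 a6) = false := by
  decide +kernel

theorem nbeq {a b : ℕ} (h : a ≠ b) : Nat.beq a b = false := by
  cases hb : Nat.beq a b
  · rfl
  · exact absurd (Nat.eq_of_beq_eq_true hb) h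

theorem test_of_IsNL {k : ℕ} (c : Fin 7 → Fin k) (h : IsNL G c) :
    test (fun v => (c v : ℕ)) = true := by
  obtain ⟨h1, h2⟩ := h
  simp only [test, List.all_eq_true, Bool.and_eq_true]
  intro u _
  refine ⟨?_, ?_⟩
  · intro v hv
    have := h1 u v hv
    rw [nbeq (fun h => this (Fin.ext h))]
    rfl
  · intro v _
    by_cases huv : u = v
    · simp [huv]
    by_cases hc : c u = c v
    · have := h2 u v huv hc
      have hm : msk (fun v => (c v : ℕ)) (nb u) ≠ msk (fun v => (c v : ℕ)) (nb v) := by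
        intro hm
        apply this
        ext x
        have key := msk_testBit (fun v => (c v : ℕ)) (nb u) x
        rw [hm, msk_testBit] at key
        constructor
        · rintro ⟨w, hw, rfl⟩
          obtain ⟨w', hw', e⟩ := key.2 ⟨w, hw, rfl⟩
          exact ⟨w', hw', Fin.ext e⟩
        · rintro ⟨w, hw, rfl⟩
          obtain ⟨w', hw', e⟩ := key.1 ⟨w, hw, rfl⟩
          exact ⟨w', hw', Fin.ext e⟩
      rw [nbeq hm]
      simp
    · have : (c u : ℕ) ≠ c v := fun h => hc (Fin.ext h)
      rw [nbeq this]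
      simp

theorem mk_eq (c : Fin 7 → ℕ) : mk (c 0) (c 1) (c 2) (c 3) (c 4) (c 5) (c 6) = c := by
  funext v
  fin_cases v <;> rfl

theorem lower (c : Fin 7 → Fin 4) (h : IsNL G c) : False := by
  have h1 := test_of_IsNL c h
  have h2 := lower_dec (c 0) (c 1) (c 2) (c 3) (c 4) (c 5) (c 6)
  have h3 := mk_eq (fun v => (c v : ℕ))
  rw [h3, h1] at h2
  exact Bool.noConfusion h2

/-- the 5-colouring of the Mycielski graph -/
def col : Fin 7 ⊕ Fin 7 ⊕ Unit → Fin 5
  | .inl v => ![0, 0, 3, 4, 1, 4, 1] v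
  | .inr (.inl v) => ![2, 3, 0, 3, 4, 2, 2] v
  | .inr (.inr _) => 1

instance : DecidableRel G.Adj := fun u v => inferInstanceAs (Decidable (v ∈ nb u))

instance : DecidableRel (mu G).Adj := fun u v =>
  match u, v with
  | .inl u, .inl v => inferInstanceAs (Decidable (G.Adj u v))
  | .inl u, .inr (.inl v) => inferInstanceAs (Decidable (G.Adj u v))
  | .inr (.inl u), .inl v => inferInstanceAs (Decidable (G.Adj u v))
  | .inr (.inl _), .inr (.inr _) => inferInstanceAs (Decidable True)
  | .inr (.inr _), .inr (.inl _) => inferInstanceAs (Decidable True)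
  | .inl _, .inr (.inr _) => inferInstanceAs (Decidable False)
  | .inr (.inr _), .inl _ => inferInstanceAs (Decidable False)
  | .inr (.inl _), .inr (.inl _) => inferInstanceAs (Decidable False)
  | .inr (.inr _), .inr (.inr _) => inferInstanceAs (Decidable False)

theorem col_dec : (∀ u v, (mu G).Adj u v → col u ≠ col v) ∧
    ∀ u v, u ≠ v → col u = col v → ∃ x : Fin 5,
      ¬ ((∃ w, (mu G).Adj u w ∧ col w = x) ↔ (∃ w, (mu G).Adj v w ∧ col w = x)) := by
  decide +kernel

theorem upper : IsNL (mu G) col := by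
  refine ⟨col_dec.1, ?_⟩
  intro u v huv hc he
  obtain ⟨x, hx⟩ := col_dec.2 u v huv hc
  apply hx
  have := Set.ext_iff.1 he x
  simpa [Set.mem_image, SimpleGraph.mem_neighborSet] using this

theorem mono {V : Type} (G : SimpleGraph V) {k l : ℕ} (h : k ≤ l) (c : V → Fin k)
    (hc : IsNL G c) : IsNL G (fun v => Fin.castLE h (c v)) := by
  refine ⟨fun u v huv e => hc.1 u v huv (Fin.castLE_injective h e), ?_⟩
  intro u v huv e he
  refine hc.2 u v huv (Fin.castLE_injective h e) ?_
  have h1 : ∀ s : Set V, (fun v => Fin.castLE h (c v)) '' s = Fin.castLE h '' (c '' s) := by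
    intro s; rw [Set.image_image]
  rw [h1, h1] at he
  exact Set.image_injective.2 (Fin.castLE_injective h) he

/-- a 5-colouring of `G` -/
theorem G_five : ∃ c : Fin 7 → Fin 5, IsNL G c := by
  refine ⟨![0, 0, 1, 1, 2, 3, 4], ?_, ?_⟩
  · intro u v
    show v ∈ nb u → _
    revert u v
    decide
  · intro u v huv hc he
    have key : ∀ u v : Fin 7, u ≠ v →
        (![0, 0, 1, 1, 2, 3, 4] : Fin 7 → Fin 5) u = (![0, 0, 1, 1, 2, 3, 4] : Fin 7 → Fin 5) v →
        ∃ x : Fin 5, ¬ ((∃ w, G.Adj u w ∧ (![0, 0, 1, 1, 2, 3, 4] : Fin 7 → Fin 5) w = x) ↔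
          (∃ w, G.Adj v w ∧ (![0, 0, 1, 1, 2, 3, 4] : Fin 7 → Fin 5) w = x)) := by
      decide +kernel
    obtain ⟨x, hx⟩ := key u v huv hc
    apply hx
    have := Set.ext_iff.1 he x
    simpa only [Set.mem_image, SimpleGraph.mem_neighborSet] using this

theorem chiNL_G : chiNL G = 5 := by
  apply le_antisymm
  · exact Nat.sInf_le G_five
  · have hne : {k | ∃ c : Fin 7 → Fin k, IsNL G c}.Nonempty := ⟨5, G_five⟩
    obtain ⟨c, hc⟩ := Nat.sInf_mem hne
    by_contra hlt
    push Not at hlt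
    have h4 : sInf {k | ∃ c : Fin 7 → Fin k, IsNL G c} ≤ 4 := by
      have : chiNL G < 5 := hlt
      unfold chiNL at this
      omega
    exact lower _ (mono G h4 c hc)

theorem chiNL_mu : chiNL (mu G) ≤ 5 := Nat.sInf_le ⟨col, upper⟩

theorem G_conn : G.Connected := by
  have hr : ∀ v : Fin 7, G.Reachable 6 v := by
    have e1 : G.Adj 6 1 := by decide
    have e2 : G.Adj 6 2 := by decide
    have e3 : G.Adj 6 3 := by decide
    have e4 : G.Adj 1 4 := by decide
    have e5 : G.Adj 1 5 := by decide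
    have e6 : G.Adj 3 0 := by decide
    intro v
    fin_cases v
    · exact e3.reachable.trans e6.reachable
    · exact e1.reachable
    · exact e2.reachable
    · exact e3.reachable
    · exact e1.reachable.trans e4.reachable
    · exact e1.reachable.trans e5.reachable
    · exact SimpleGraph.Reachable.refl _
  have : Nonempty (Fin 7) := ⟨0⟩
  exact SimpleGraph.Connected.mk fun u v => (hr u).symm.trans (hr v)

/-- There is a connected graph on 7 vertices with `χ_NL(μ(G)) ≤ χ_NL(G)`; in particular the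
equality `χ_NL(μ(G)) = χ_NL(G) + 1` does not hold for every graph. -/
theorem result :
    (∃ G : SimpleGraph (Fin 7), G.Connected ∧ chiNL (mu G) ≤ chiNL G) ∧
      ¬ ∀ (n : ℕ) (G : SimpleGraph (Fin n)), chiNL (mu G) = chiNL G + 1 := by
  have h : chiNL (mu G) ≤ chiNL G := by rw [chiNL_G]; exact chiNL_mu
  refine ⟨⟨G, G_conn, h⟩, fun hall => ?_⟩
  have := hall 7 G
  omega

end Pool.Agent.Results.MP_03cbb9_co.MycielskiNL
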